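import Pool.Agent.Lib.L8.FR.R1
import Pool.Agent.Lib.H29F.FC0

/-!
# The rank one lemma with level, in the form of Lib/H29F/FC0.lean
-/

namespace Pool.Agent.Lib.H29F

open NumberField IsDedekindDomain Pool.Agent.Lib.H89N

noncomputable section

set_option linter.unusedSectionVars false

variable {K : Type} [Field K] [NumberField K]

theorem OK_eq : OK K = L8.FR.OO K := rfl

theorem nv_eq (𝔫 : Ideal (𝓞 K)) (v : HeightOneSpectrum (𝓞 K)) : nv 𝔫 v = nw v 𝔫 := by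
  unfold nv nw
  rw [inv_pow, zpow_neg, zpow_natCast]

theorem av_eq (v : HeightOneSpectrum (𝓞 K)) (x : K) : av v x = aw v x := rfl

/-- The series over the ideals is decreasing. -/
theorem Zi_anti {μ ν : ℝ} (hμ : 1 < μ) (h : μ ≤ ν) : L8.FR.Zi K ν ≤ L8.FR.Zi K μ := by
  refine Summable.tsum_le_tsum (fun I => ?_) (L8.FR.ideal_summable ν (by linarith)) (L8.FR.ideal_summable μ hμ)
  rcases Nat.eq_zero_or_pos (Ideal.absNorm I) with h0 | h0
  · rw [h0, Nat.cast_zero, Real.zero_rpow (by linarith), Real.zero_rpow (by linarith)]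
  · exact Real.rpow_le_rpow_of_exponent_le (by exact_mod_cast h0) (by linarith)

variable (K) in
/-- **The rank one lemma with level.** -/
theorem rank_one {ε : ℝ} (hε : 0 < ε) : ∃ Z : ℝ, 0 ≤ Z ∧ ∀ μ : ℝ, 1 + ε ≤ μ → ∀ 𝔫 : Ideal (𝓞 K), 𝔫 ≠ ⊥ → ∀ (a : HeightOneSpectrum (𝓞 K) → ℝ) (c : HeightOneSpectrum (𝓞 K) → K),
    (∀ v, ∃ y : K, y ≠ 0 ∧ a v = av v y) → {v | a v ≠ 1}.Finite → ∀ A : AddSubgroup K, A.relIndex (OK K) ≠ 0 → (OK K).relIndex A ≠ 0 → ∀ T : Finset K,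
    (∀ r ∈ T, ∀ r' ∈ T, r ≠ r' → r - r' ∉ A) → (∀ r ∈ T, {v | mx a c r v ≠ 1}.Finite) →
    (∀ r ∈ T, ∀ r' ∈ T, ∀ v, av v (r - r') ≤ nv 𝔫 v * mx a c r v * mx a c r' v / a v) →
    (∀ r ∈ T, ∀ s ∈ A, ∀ v, av v s ≤ mx a c r v ∧ av v s ≤ nv 𝔫 v * (mx a c r v) ^ 2 / a v) →
    ∑ r ∈ T, (∏ᶠ v, mx a c r v) ^ (-(1 + μ)) ≤ Z * (∏ᶠ v, a v) ^ (-μ) * agi (OK K) A / (Ideal.absNorm 𝔫 : ℝ) := by
  refine ⟨L8.FR.Zi K (1 + ε), tsum_nonneg fun I => Real.rpow_nonneg (Nat.cast_nonneg _) _, ?_⟩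
  intro μ hμ 𝔫 h𝔫 a c ha haf A h1 h2 T hinc hTf hl hΛ
  have ha0 : ∀ v, 0 < a v := by
    intro v
    obtain ⟨y, hy, e⟩ := ha v
    rw [e]
    exact (av v).pos hy
  have hmx0 : ∀ r v, 0 < mx a c r v := fun r v => lt_of_lt_of_le (ha0 v) (le_max_left _ _)
  have key := L8.FR.rank_one (K := K) (μ := μ) (by linarith) h𝔫 (c := a) (fun v => by
      obtain ⟨y, hy, e⟩ := ha v
      obtain ⟨m, hm⟩ := aw_zpow v y hy
      exact ⟨m, by rw [e, av_eq, hm]⟩) haf (r0 := c) (D := fun r v => mx a c r v) (fun r v => rfl) h1 h2 T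
    (fun r hr t ht v => by
      obtain ⟨h3, h4⟩ := hΛ r hr t ht v
      refine ⟨h3, ?_⟩
      rw [le_div_iff₀ (ha0 v), nv_eq] at h4
      exact h4.trans (le_of_eq (by ring)))
    (fun r hr r' hr' v => by
      have h4 := hl r hr r' hr' v
      rw [le_div_iff₀ (ha0 v), nv_eq] at h4
      exact h4) hTf (fun r hr r' hr' h => by
      by_contra hne
      exact hinc r hr r' hr' hne h)
  have e1 : ∀ r ∈ T, (∏ᶠ v, mx a c r v) ^ (-(1 + μ)) = ∏ᶠ v, (mx a c r v) ^ (-(1 + μ)) := by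
    intro r hr
    have hs : (Function.mulSupport fun v => mx a c r v) ⊆ ((hTf r hr).toFinset : Set _) := by
      intro v hv
      rw [Set.Finite.coe_toFinset]
      exact hv
    have hs' : (Function.mulSupport fun v => (mx a c r v) ^ (-(1 + μ))) ⊆ ((hTf r hr).toFinset : Set _) := by
      intro v hv
      rw [Set.Finite.coe_toFinset]
      intro h
      exact hv (by show (mx a c r v) ^ (-(1 + μ)) = 1; rw [h, Real.one_rpow])
    rw [finprod_eq_prod_of_mulSupport_subset _ hs, finprod_eq_prod_of_mulSupport_subset _ hs', Real.finsetProd_rpow _ _ fun v _ => (hmx0 r v).le]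
  have e2 : (∏ᶠ v, a v) ^ (-μ) = ∏ᶠ v, (a v) ^ (-μ) := by
    have hs : (Function.mulSupport fun v => a v) ⊆ (haf.toFinset : Set _) := by
      intro v hv
      rw [Set.Finite.coe_toFinset]
      exact hv
    have hs' : (Function.mulSupport fun v => (a v) ^ (-μ)) ⊆ (haf.toFinset : Set _) := by
      intro v hv
      rw [Set.Finite.coe_toFinset]
      intro h
      exact hv (by show (a v) ^ (-μ) = 1; rw [h, Real.one_rpow])
    rw [finprod_eq_prod_of_mulSupport_subset _ hs, finprod_eq_prod_of_mulSupport_subset _ hs', Real.finsetProd_rpow _ _ fun v _ => (ha0 v).le]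
  rw [Finset.sum_congr rfl e1]
  refine key.trans ?_
  have hgi : L8.FR.gi A = agi (OK K) A := rfl
  have hp : 0 ≤ ∏ᶠ v, (a v) ^ (-μ) := by
    rw [← e2]
    exact Real.rpow_nonneg (finprod_nonneg fun v => (ha0 v).le) _
  have hC : 0 ≤ (Ideal.absNorm 𝔫 : ℝ)⁻¹ * (∏ᶠ v, (a v) ^ (-μ)) * agi (OK K) A :=
    mul_nonneg (mul_nonneg (inv_nonneg.2 (Nat.cast_nonneg _)) hp) (div_nonneg (Nat.cast_nonneg _) (Nat.cast_nonneg _))
  rw [hgi, e2]
  refine (mul_le_mul_of_nonneg_right (Zi_anti (by linarith) hμ) hC).trans (le_of_eq ?_)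
  rw [div_eq_mul_inv]
  ring

end

end Pool.Agent.Lib.H29F
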