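import Pool.Agent.Lib.L8.FR.R2
import Pool.Agent.Lib.H29F.FC1

/-!
# The rank one lemma in the form `RankOne` of Lib/H29F/FC1.lean
-/

namespace Pool.Agent.Lib.H29F

open NumberField IsDedekindDomain

noncomputable section

variable (K : Type) [Field K] [NumberField K]

/-- **The rank one lemma**: `RankOne K ε Z` for some `Z ≥ 1`. -/
theorem exists_rankOne {ε : ℝ} (hε : 0 < ε) : ∃ Z : ℝ, 1 ≤ Z ∧ RankOne K ε Z := by
  obtain ⟨Z, hZ, h⟩ := rank_one K hε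
  refine ⟨max 1 Z, le_max_left _ _, ?_⟩
  intro 𝔫 h𝔫 a c 𝔞 T μ hμ ha haf hTf h1 h2 hinc hl hΛ
  refine (h μ hμ 𝔫 h𝔫 a c ha haf 𝔞 h1 h2 T hinc hTf hl hΛ).trans ?_
  have ha0 : ∀ v, 0 < a v := by
    intro v
    obtain ⟨y, hy, e⟩ := ha v
    rw [e]
    exact (av v).pos hy
  have h3 : 0 ≤ (∏ᶠ v, a v) ^ (-μ) := Real.rpow_nonneg (finprod_nonneg fun v => (ha0 v).le) _
  have h4 : 0 ≤ agi (OK K) 𝔞 := div_nonneg (Nat.cast_nonneg _) (Nat.cast_nonneg _)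
  have h5 : (0 : ℝ) ≤ (Ideal.absNorm 𝔫 : ℝ) := Nat.cast_nonneg _
  exact div_le_div_of_nonneg_right (mul_le_mul_of_nonneg_right (mul_le_mul_of_nonneg_right (le_max_right 1 Z) h3) h4) h5

end

end Pool.Agent.Lib.H29F
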