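import Pool.Agent.Lib.H89N.NU2

/-!
# The rank one lemma, part 0: ideals given by local exponents; boxes and their index
-/

namespace Pool.Agent.Lib.L8.FR

open NumberField IsDedekindDomain Pool.Agent.Lib.H89N

noncomputable section

set_option linter.unusedSectionVars false

variable {K : Type} [Field K] [NumberField K]

/-! ## 1. Ideals with given exponents -/

theorem d3_nw_mul (w : HeightOneSpectrum (𝓞 K)) {I J : Ideal (𝓞 K)} (hI : I ≠ ⊥) (hJ : J ≠ ⊥) : nw w (I * J) = nw w I * nw w J := by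
  have h1 : (Associates.mk w.asIdeal).count (Associates.mk (I * J)).factors =
      (Associates.mk w.asIdeal).count (Associates.mk I).factors + (Associates.mk w.asIdeal).count (Associates.mk J).factors := by
    rw [← Associates.mk_mul_mk, Associates.count_mul (Associates.mk_ne_zero.2 hI) (Associates.mk_ne_zero.2 hJ) w.associates_irreducible]
  unfold nw
  rw [h1, ← zpow_add₀ (nu2_pos w).ne']
  congr 1
  push_cast
  ring

theorem d3_nw_self (v : HeightOneSpectrum (𝓞 K)) : nw v v.asIdeal = (Ideal.absNorm v.asIdeal : ℝ) ^ (-1 : ℤ) := by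
  unfold nw
  rw [Associates.count_self v.associates_irreducible]
  simp

/-- `∏_{v ∈ T} v ^ (k v)`. -/
def PI (T : Finset (HeightOneSpectrum (𝓞 K))) (k : HeightOneSpectrum (𝓞 K) → ℕ) : Ideal (𝓞 K) := ∏ v ∈ T, v.asIdeal ^ k v

theorem PI_ne (T : Finset (HeightOneSpectrum (𝓞 K))) (k : HeightOneSpectrum (𝓞 K) → ℕ) : PI T k ≠ ⊥ := by
  unfold PI
  rw [Ne, ← Ideal.zero_eq_bot, Finset.prod_eq_zero_iff]
  rintro ⟨v, _, h⟩
  exact pow_ne_zero _ v.ne_bot h

theorem PI_norm (T : Finset (HeightOneSpectrum (𝓞 K))) (k : HeightOneSpectrum (𝓞 K) → ℕ) :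
    (Ideal.absNorm (PI T k) : ℝ) = ∏ v ∈ T, (Ideal.absNorm v.asIdeal : ℝ) ^ k v := by
  unfold PI
  rw [map_prod]
  push_cast
  exact Finset.prod_congr rfl fun v _ => by rw [map_pow]; push_cast; rfl

theorem nw_other {v w : HeightOneSpectrum (𝓞 K)} (h : v ≠ w) : nw v w.asIdeal = 1 := by
  refine nu2_nw_one v w.ne_bot fun hle => h ?_
  have h1 : w.asIdeal = v.asIdeal := (w.isMaximal.eq_of_le v.isPrime.ne_top hle)
  exact (HeightOneSpectrum.ext h1).symm

theorem nw_PI (v : HeightOneSpectrum (𝓞 K)) (T : Finset (HeightOneSpectrum (𝓞 K))) (k : HeightOneSpectrum (𝓞 K) → ℕ) (hk : ∀ v, v ∉ T → k v = 0) :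
    nw v (PI T k) = (Ideal.absNorm v.asIdeal : ℝ) ^ (-(k v : ℤ)) := by
  classical
  have key : ∀ S : Finset (HeightOneSpectrum (𝓞 K)), nw v (PI S k) = if v ∈ S then (Ideal.absNorm v.asIdeal : ℝ) ^ (-(k v : ℤ)) else 1 := by
    intro S
    induction S using Finset.induction_on with
    | empty =>
      rw [if_neg (Finset.notMem_empty _)]
      unfold PI
      rw [Finset.prod_empty, Ideal.one_eq_top]
      exact nu2_nw_top v
    | insert a S ha ih =>
      have e : PI (insert a S) k = a.asIdeal ^ k a * PI S k := by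
        unfold PI
        rw [Finset.prod_insert ha]
      rw [e, d3_nw_mul v (pow_ne_zero _ a.ne_bot) (PI_ne S k), nu2_nw_pow v a.ne_bot, ih]
      by_cases hva : v = a
      · subst hva
        rw [if_neg ha, if_pos (Finset.mem_insert_self _ _), mul_one, d3_nw_self, ← zpow_natCast, ← zpow_mul]
        congr 1
        ring
      · rw [nw_other hva, one_pow, one_mul]
        by_cases hvS : v ∈ S
        · rw [if_pos hvS, if_pos (Finset.mem_insert_of_mem hvS)]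
        · rw [if_neg hvS, if_neg (by rw [Finset.mem_insert]; tauto)]
  rw [key T]
  by_cases hv : v ∈ T
  · rw [if_pos hv]
  · rw [if_neg hv, hk v hv]
    simp

theorem nw_inj {I J : Ideal (𝓞 K)} (hI : I ≠ ⊥) (hJ : J ≠ ⊥) (h : ∀ v, nw v I = nw v J) : I = J := by
  have key : ∀ {I J : Ideal (𝓞 K)}, I ≠ ⊥ → J ≠ ⊥ → (∀ v, nw v I = nw v J) → I ≤ J := by
    intro I J hI hJ h x hx
    obtain ⟨z, hz, hzx⟩ := (nu2_A hJ (x : K)).2 fun w => by
      rw [← h w]
      exact (nu2_A hI (x : K)).1 ⟨x, hx, rfl⟩ w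
    have : x = z := by exact_mod_cast hzx
    rw [this]
    exact hz
  exact le_antisymm (key hI hJ h) (key hJ hI fun v => (h v).symm)

/-- The exponents of an ideal. -/
def od (I : Ideal (𝓞 K)) (v : HeightOneSpectrum (𝓞 K)) : ℕ := (Associates.mk v.asIdeal).count (Associates.mk I).factors

theorem nw_od (I : Ideal (𝓞 K)) (v : HeightOneSpectrum (𝓞 K)) : nw v I = (Ideal.absNorm v.asIdeal : ℝ) ^ (-(od I v : ℤ)) := rfl

theorem od_finite {I : Ideal (𝓞 K)} (hI : I ≠ ⊥) : {v | od I v ≠ 0}.Finite := by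
  refine (Ideal.finite_factors hI).subset fun v hv => ?_
  by_contra h
  rw [Set.mem_ofPred_eq, Ideal.dvd_iff_le] at h
  have h1 := nu2_nw_one v hI h
  rw [nw_od] at h1
  have hq := nu2_one_lt v
  rw [zpow_neg, zpow_natCast, inv_eq_one] at h1
  exact hv (by
    by_contra h0
    exact (one_lt_pow₀ hq h0).ne' h1)

theorem PI_od {I : Ideal (𝓞 K)} (hI : I ≠ ⊥) (T : Finset (HeightOneSpectrum (𝓞 K))) (hT : ∀ v, v ∉ T → od I v = 0) : PI T (od I) = I :=
  nw_inj (PI_ne _ _) hI fun v => by rw [nw_PI v T _ hT, nw_od]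

theorem norm_od {I : Ideal (𝓞 K)} (hI : I ≠ ⊥) (T : Finset (HeightOneSpectrum (𝓞 K))) (hT : ∀ v, v ∉ T → od I v = 0) :
    (Ideal.absNorm I : ℝ) = ∏ v ∈ T, (Ideal.absNorm v.asIdeal : ℝ) ^ od I v := by
  rw [← PI_norm, PI_od hI T hT]

theorem nw_span {x : 𝓞 K} (hx : x ≠ 0) (v : HeightOneSpectrum (𝓞 K)) : nw v (Ideal.span {x}) = aw v (x : K) := by
  have hs : (Ideal.span {x} : Ideal (𝓞 K)) ≠ ⊥ := by simpa using hx
  refine le_antisymm ?_ ((nu2_A hs (x : K)).1 ⟨x, Ideal.mem_span_singleton_self x, rfl⟩ v)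
  have hx' : (x : K) ≠ 0 := by exact_mod_cast hx
  obtain ⟨m, hm⟩ := aw_zpow v (x : K) hx'
  have h1 := nu2_le_one v x
  rw [hm] at h1
  have hm0 : m ≤ 0 := by
    by_contra h
    exact absurd (one_lt_zpow₀ (nu2_one_lt v) (not_le.1 h)) (not_lt.2 h1)
  obtain ⟨k, hk⟩ := Int.eq_ofNat_of_zero_le (neg_nonneg.2 hm0)
  have hmk : m = -(k : ℤ) := by omega
  have h2 : x ∈ v.asIdeal ^ k := (nu2_le_pow v x k).1 (by rw [hm, hmk])
  rw [hm, hmk, nw_od]
  refine zpow_le_zpow_right₀ (nu2_one_lt v).le (neg_le_neg ?_)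
  have h3 : k ≤ od (Ideal.span {x}) v := by
    unfold od
    rw [← Associates.prime_pow_dvd_iff_le (Associates.mk_ne_zero.2 hs) v.associates_irreducible, ← Associates.mk_pow, Associates.mk_le_mk_iff_dvd]
    exact Ideal.dvd_span_singleton.2 h2
  exact_mod_cast h3

/-! ## 2. The generalised index -/

variable (K) in
/-- The ring of integers, as an additive subgroup of `K`. -/
def OO : AddSubgroup K := (algebraMap (𝓞 K) K : 𝓞 K →+ K).range

theorem mem_OO {x : K} : x ∈ OO K ↔ ∃ z : 𝓞 K, (z : K) = x := Iff.rfl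

/-- The generalised index `[𝓞 : Λ]`. -/
def gi (Λ : AddSubgroup K) : ℝ := (Λ.relIndex (OO K) : ℝ) / ((OO K).relIndex Λ : ℝ)

/-- An ideal as an additive subgroup of `K`. -/
def IO (I : Ideal (𝓞 K)) : AddSubgroup K := (Submodule.toAddSubgroup I).map (algebraMap (𝓞 K) K : 𝓞 K →+ K)

theorem mem_IO {I : Ideal (𝓞 K)} {x : K} : x ∈ IO I ↔ ∃ z ∈ I, (z : K) = x := Iff.rfl

theorem IO_le (I : Ideal (𝓞 K)) : IO I ≤ OO K := by
  rintro x ⟨z, _, rfl⟩
  exact ⟨z, rfl⟩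

theorem IO_index (I : Ideal (𝓞 K)) : (IO I).relIndex (OO K) = Ideal.absNorm I := by
  have hinj : Function.Injective (algebraMap (𝓞 K) K : 𝓞 K →+ K) := RingOfIntegers.coe_injective
  have e : OO K = (⊤ : AddSubgroup (𝓞 K)).map (algebraMap (𝓞 K) K : 𝓞 K →+ K) := by
    ext x
    constructor
    · rintro ⟨z, rfl⟩
      exact ⟨z, trivial, rfl⟩
    · rintro ⟨z, _, rfl⟩
      exact ⟨z, rfl⟩
  rw [e]
  unfold IO
  rw [AddSubgroup.relIndex_map_map_of_injective _ _ hinj, AddSubgroup.relIndex_top_right]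
  rfl

/-- Multiplication by `M`. -/
def mlt (M : K) : K →+ K := AddMonoidHom.mulLeft M

theorem mlt_inj {M : K} (hM : M ≠ 0) : Function.Injective (mlt M) := fun _ _ h => mul_left_cancel₀ hM h

theorem mlt_index {M : K} (hM : M ≠ 0) (A B : AddSubgroup K) : (A.map (mlt M)).relIndex (B.map (mlt M)) = A.relIndex B :=
  AddSubgroup.relIndex_map_map_of_injective _ _ (mlt_inj hM)

theorem relIndex_tower {A B C : AddSubgroup K} (h1 : A ≤ B) (h2 : B ≤ C) : A.relIndex C = A.relIndex B * B.relIndex C :=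
  (AddSubgroup.relIndex_mul_relIndex A B C h1 h2).symm

/-- `[𝓞 : M Λ] = N(M) [𝓞 : Λ]` if `M Λ` is integral. -/
theorem gi_mlt {Λ : AddSubgroup K} (h2 : (OO K).relIndex Λ ≠ 0) {M : 𝓞 K} (hM : M ≠ 0) (hMΛ : Λ.map (mlt (M : K)) ≤ OO K) :
    ((Λ.map (mlt (M : K))).relIndex (OO K) : ℝ) = Ideal.absNorm (Ideal.span {M}) * gi Λ := by
  have hM' : (M : K) ≠ 0 := by exact_mod_cast hM
  have e1 : ((Λ ⊓ OO K).map (mlt (M : K))).relIndex (OO K) = ((Λ ⊓ OO K).map (mlt (M : K))).relIndex (Λ.map (mlt (M : K))) * (Λ.map (mlt (M : K))).relIndex (OO K) :=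
    relIndex_tower (AddSubgroup.map_mono inf_le_left) hMΛ
  have hMO : (OO K).map (mlt (M : K)) = IO (Ideal.span {M}) := by
    ext x
    constructor
    · rintro ⟨_, ⟨z, rfl⟩, rfl⟩
      exact ⟨M * z, Ideal.mul_mem_right _ _ (Ideal.mem_span_singleton_self M), by simp [mlt]⟩
    · rintro ⟨z, hz, rfl⟩
      obtain ⟨y, rfl⟩ := Ideal.mem_span_singleton'.1 hz
      exact ⟨(y : K), ⟨y, rfl⟩, by simp [mlt, mul_comm]⟩
  have e2 : ((Λ ⊓ OO K).map (mlt (M : K))).relIndex (OO K) = ((Λ ⊓ OO K).map (mlt (M : K))).relIndex ((OO K).map (mlt (M : K))) * ((OO K).map (mlt (M : K))).relIndex (OO K) :=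
    relIndex_tower (AddSubgroup.map_mono inf_le_right) (by rw [hMO]; exact IO_le _)
  rw [mlt_index hM', AddSubgroup.inf_relIndex_left] at e1
  rw [mlt_index hM', AddSubgroup.inf_relIndex_right, hMO, IO_index] at e2
  unfold gi
  have h3 : ((OO K).relIndex Λ : ℝ) ≠ 0 := by exact_mod_cast h2
  rw [mul_div_assoc', eq_div_iff h3]
  have h4 : ((Λ.map (mlt (M : K))).relIndex (OO K)) * (OO K).relIndex Λ = Ideal.absNorm (Ideal.span {M}) * Λ.relIndex (OO K) := by
    rw [mul_comm, ← e1, e2, mul_comm]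
  exact_mod_cast h4

/-! ## 3. Boxes -/

/-- The fractional ideal `Q / P`. -/
def Bx (P Q : Ideal (𝓞 K)) : AddSubgroup K where
  carrier := {x | ∀ v, aw v x * nw v P ≤ nw v Q}
  zero_mem' := fun v => by
    rw [map_zero, zero_mul]
    exact (nw_pos v Q).le
  add_mem' := fun {x y} hx hy v => by
    have h := aw_nonarch v x y
    rcases le_total (aw v x) (aw v y) with h1 | h1
    · rw [max_eq_right h1] at h
      exact (mul_le_mul_of_nonneg_right h (nw_pos v P).le).trans (hy v)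
    · rw [max_eq_left h1] at h
      exact (mul_le_mul_of_nonneg_right h (nw_pos v P).le).trans (hx v)
  neg_mem' := fun {x} hx v => by
    rw [AbsoluteValue.map_neg]
    exact hx v

theorem mem_Bx {P Q : Ideal (𝓞 K)} {x : K} : x ∈ Bx P Q ↔ ∀ v, aw v x * nw v P ≤ nw v Q := Iff.rfl

/-- **The index of a lattice in a fractional ideal**: `[Q / P : Λ] = [𝓞 : Λ] N(P) / N(Q)`. -/
theorem Bx_index {P Q : Ideal (𝓞 K)} (hP : P ≠ ⊥) (hQ : Q ≠ ⊥) {Λ : AddSubgroup K} (h2 : (OO K).relIndex Λ ≠ 0) (hΛ : Λ ≤ Bx P Q) :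
    (Λ.relIndex (Bx P Q) : ℝ) = gi Λ * (Ideal.absNorm P : ℝ) / (Ideal.absNorm Q : ℝ) := by
  obtain ⟨M, hMP, hM⟩ := Submodule.exists_mem_ne_zero_of_ne_bot hP
  have hM' : (M : K) ≠ 0 := by exact_mod_cast hM
  obtain ⟨R, hR⟩ : P ∣ Ideal.span {M} := Ideal.dvd_span_singleton.2 hMP
  have hs : (Ideal.span {M} : Ideal (𝓞 K)) ≠ ⊥ := by simpa using hM
  have hR0 : R ≠ ⊥ := by
    rintro rfl
    rw [Ideal.mul_bot] at hR
    exact hs hR
  have hRQ : R * Q ≠ ⊥ := mul_ne_zero hR0 hQ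
  have e1 : (Bx P Q).map (mlt (M : K)) = IO (R * Q) := by
    ext x
    have key : ∀ y : K, y ∈ Bx P Q ↔ ∀ v, aw v ((M : K) * y) ≤ nw v (R * Q) := by
      intro y
      rw [mem_Bx]
      refine forall_congr' fun v => ?_
      rw [map_mul, ← nw_span hM v, hR, d3_nw_mul v hP hR0, d3_nw_mul v hR0 hQ, mul_assoc, mul_comm (nw v R), ← mul_assoc, mul_comm (nw v P), mul_comm (nw v R)]
      exact (mul_le_mul_iff_left₀ (nw_pos v R)).symm
    constructor
    · rintro ⟨y, hy, rfl⟩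
      obtain ⟨z, hz, hzx⟩ := (nu2_A hRQ _).2 ((key y).1 hy)
      exact ⟨z, hz, hzx.symm⟩
    · rintro ⟨z, hz, rfl⟩
      refine ⟨(M : K)⁻¹ * z, (key _).2 ?_, ?_⟩
      · rw [mul_inv_cancel_left₀ hM']
        exact (nu2_A hRQ _).1 ⟨z, hz, rfl⟩
      · exact mul_inv_cancel_left₀ hM' _
  have h3 : Λ.map (mlt (M : K)) ≤ IO (R * Q) := by
    rw [← e1]
    exact AddSubgroup.map_mono hΛ
  have e2 := gi_mlt h2 hM (h3.trans (IO_le _))
  rw [relIndex_tower h3 (IO_le _), ← e1, mlt_index hM', e1, IO_index] at e2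
  have hn : (Ideal.absNorm (Ideal.span {M}) : ℝ) = Ideal.absNorm P * Ideal.absNorm R := by
    rw [hR, map_mul]
    push_cast
    rfl
  have hPn : (Ideal.absNorm P : ℝ) ≠ 0 := by
    rw [Ne, Nat.cast_eq_zero, Ideal.absNorm_eq_zero_iff]
    exact hP
  have hQn : (Ideal.absNorm Q : ℝ) ≠ 0 := by
    rw [Ne, Nat.cast_eq_zero, Ideal.absNorm_eq_zero_iff]
    exact hQ
  have hRn : (Ideal.absNorm R : ℝ) ≠ 0 := by
    rw [Ne, Nat.cast_eq_zero, Ideal.absNorm_eq_zero_iff]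
    exact hR0
  rw [hn, map_mul] at e2
  push_cast at e2
  rw [eq_div_iff hQn]
  have e3 : (Ideal.absNorm R : ℝ) * ((Λ.relIndex (Bx P Q) : ℝ) * (Ideal.absNorm Q : ℝ)) = (Ideal.absNorm R : ℝ) * (gi Λ * (Ideal.absNorm P : ℝ)) := by
    linear_combination e2
  exact mul_left_cancel₀ hRn e3

/-- **Incongruent points in a coset of a fractional ideal.** -/
theorem Bx_card {P Q : Ideal (𝓞 K)} (hP : P ≠ ⊥) (hQ : Q ≠ ⊥) {Λ : AddSubgroup K} (h1 : Λ.relIndex (OO K) ≠ 0) (h2 : (OO K).relIndex Λ ≠ 0) (hΛ : Λ ≤ Bx P Q)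
    (F : Finset K) (hF : ∀ r ∈ F, ∀ r' ∈ F, r - r' ∈ Bx P Q) (hinc : ∀ r ∈ F, ∀ r' ∈ F, r - r' ∈ Λ → r = r') :
    (F.card : ℝ) ≤ gi Λ * (Ideal.absNorm P : ℝ) / (Ideal.absNorm Q : ℝ) := by
  rw [← Bx_index hP hQ h2 hΛ]
  have hPn : (Ideal.absNorm P : ℝ) ≠ 0 := by
    rw [Ne, Nat.cast_eq_zero, Ideal.absNorm_eq_zero_iff]
    exact hP
  have hQn : (Ideal.absNorm Q : ℝ) ≠ 0 := by
    rw [Ne, Nat.cast_eq_zero, Ideal.absNorm_eq_zero_iff]
    exact hQ
  have hgi : gi Λ ≠ 0 := div_ne_zero (by exact_mod_cast h1) (by exact_mod_cast h2)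
  have h0 : Λ.relIndex (Bx P Q) ≠ 0 := by
    intro h
    have := Bx_index hP hQ h2 hΛ
    rw [h, Nat.cast_zero] at this
    exact (div_ne_zero (mul_ne_zero hgi hPn) hQn) this.symm
  rcases F.eq_empty_or_nonempty with rfl | ⟨r₀, hr₀⟩
  · simp
  · have : Finite (Bx P Q ⧸ Λ.addSubgroupOf (Bx P Q)) := by
      by_contra hinf
      rw [not_finite_iff_infinite] at hinf
      exact h0 (by
        unfold AddSubgroup.relIndex AddSubgroup.index
        exact Nat.card_eq_zero_of_infinite)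
    have hfin := Fintype.ofFinite (Bx P Q ⧸ Λ.addSubgroupOf (Bx P Q))
    have hcard : (Λ.relIndex (Bx P Q)) = Fintype.card (Bx P Q ⧸ Λ.addSubgroupOf (Bx P Q)) := by
      unfold AddSubgroup.relIndex AddSubgroup.index
      exact Nat.card_eq_fintype_card
    rw [hcard]
    have hle : F.attach.card ≤ Fintype.card (Bx P Q ⧸ Λ.addSubgroupOf (Bx P Q)) := by
      rw [← Finset.card_univ]
      refine Finset.card_le_card_of_injOn (fun r => (QuotientAddGroup.mk (⟨r.1 - r₀, hF _ r.2 _ hr₀⟩ : Bx P Q) : Bx P Q ⧸ Λ.addSubgroupOf (Bx P Q))) (fun _ _ => Finset.mem_coe.2 (Finset.mem_univ _)) ?_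
      intro r _ r' _ h
      have h' := QuotientAddGroup.eq.1 h
      rw [AddSubgroup.mem_addSubgroupOf] at h'
      have h5 : r'.1 - r.1 ∈ Λ := by
        have e : (↑(-(⟨r.1 - r₀, hF _ r.2 _ hr₀⟩ : Bx P Q) + ⟨r'.1 - r₀, hF _ r'.2 _ hr₀⟩) : K) = r'.1 - r.1 := by
          push_cast
          ring
        rw [e] at h'
        exact h'
      exact Subtype.ext (hinc _ r'.2 _ r.2 h5).symm
    rw [Finset.card_attach] at hle
    exact_mod_cast hle

end

end Pool.Agent.Lib.L8.FR
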