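import Pool.Agent.Lib.L8.FR.R0

/-!
# The rank one lemma with level

`rank_one`: the sum over the `r` in `K` modulo a lattice `Λ` of `∏_v max(c_v, |r + r0_v|_v) ^ (-(1 + μ))`, with the level condition (two admissible `r`, `r'` satisfy `|r - r'|_v c_v ≤ |𝔫|_v D_v(r) D_v(r')`), is
at most `ζ_K(μ) N(𝔫)⁻¹ ∏_v c_v ^ (-μ) [𝓞 : Λ]`.
-/

namespace Pool.Agent.Lib.L8.FR

open NumberField IsDedekindDomain Pool.Agent.Lib.H89N

noncomputable section

set_option linter.unusedSectionVars false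

/-! ## 1. The series over the ideals -/

section base

variable {K : Type} [Field K] [NumberField K]

theorem H3_tendsto : Filter.Tendsto (fun n : ℕ => (∑ k ∈ Finset.Icc 1 n,
    (Nat.card {I : Ideal (𝓞 K) // Ideal.absNorm I = k} : ℝ)) / (n : ℝ)) Filter.atTop
    (nhds (NumberField.dedekindZeta_residue K)) := by
  refine ((Ideal.tendsto_norm_le_div_atTop₀ K).comp tendsto_natCast_atTop_atTop).congr fun n ↦ ?_
  simp only [Function.comp_apply, Nat.cast_le, ← Nat.cast_sum]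
  congr
  rw [← add_left_inj 1, ← Ideal.card_norm_le_eq_card_norm_le_add_one,
    show Finset.Icc 1 n = Finset.Ioc 0 n from Finset.Icc_succ_left_eq_Ioc _ _,
    show 1 = Nat.card {I : Ideal (𝓞 K) // Ideal.absNorm I = 0} by simp [Ideal.absNorm_eq_zero_iff],
    Finset.sum_Ioc_add_eq_sum_Icc (n.zero_le),
    ← Finset.card_preimage_eq_sum_card_image_eq (fun k _ ↦ Ideal.finite_setOfPred_absNorm_eq k)]
  simp [Set.coe_eq_subtype]

theorem ideal_summable (σ : ℝ) (hσ : 1 < σ) :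
    Summable (fun a : Ideal (𝓞 K) => (Ideal.absNorm a : ℝ) ^ (-σ)) := by
  have h0 : LSeriesSummable (fun n => (((Nat.card {I : Ideal (𝓞 K) // Ideal.absNorm I = n} : ℕ) : ℝ) : ℂ))
      (σ : ℂ) := by
    have h1 : 1 < (σ : ℂ).re := by simpa using hσ
    refine LSeriesSummable_of_sum_norm_bigO_and_nonneg (r := 1) ?_ (fun _ => Nat.cast_nonneg _)
      zero_le_one h1
    exact Asymptotics.isBigO_atTop_natCast_rpow_of_tendsto_div_rpow (𝕜 := ℝ) (a := NumberField.dedekindZeta_residue K)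
      (by simpa using (H3_tendsto (K := K)))
  have h2 : Summable (fun n : ℕ =>
      ((Nat.card {I : Ideal (𝓞 K) // Ideal.absNorm I = n} : ℕ) : ℝ) * (n : ℝ) ^ (-σ)) := by
    refine (summable_norm_iff.2 h0).congr fun n => ?_
    rcases Nat.eq_zero_or_pos n with rfl | hn
    · rw [LSeries.term_zero, norm_zero, Nat.cast_zero, Real.zero_rpow (by linarith), mul_zero]
    · rw [LSeries.term_of_ne_zero (by omega), norm_div, Complex.norm_natCast_cpow_of_pos hn,
        Complex.norm_real, Real.norm_of_nonneg (Nat.cast_nonneg _), Complex.ofReal_re,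
        Real.rpow_neg (Nat.cast_nonneg _), div_eq_mul_inv]
  rw [← (Equiv.sigmaFiberEquiv (fun a : Ideal (𝓞 K) => Ideal.absNorm a)).summable_iff]
  have h3 : ∀ n : ℕ, Finite {I : Ideal (𝓞 K) // Ideal.absNorm I = n} := fun n =>
    (Ideal.finite_setOfPred_absNorm_eq n).to_subtype
  rw [summable_sigma_of_nonneg]
  · refine ⟨fun n => Summable.of_finite, h2.congr fun n => ?_⟩
    have := Fintype.ofFinite {I : Ideal (𝓞 K) // Ideal.absNorm I = n}
    rw [tsum_fintype]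
    rw [Finset.sum_congr rfl (g := fun _ => (n : ℝ) ^ (-σ))]
    · rw [Finset.sum_const, Finset.card_univ, Nat.card_eq_fintype_card, nsmul_eq_mul]
    · rintro ⟨I, hI⟩ -
      simp only [Function.comp_apply, Equiv.sigmaFiberEquiv_apply]
      rw [hI]
  · rintro ⟨n, I⟩
    simp only [Function.comp_apply]
    positivity

end base

variable (K : Type) [Field K] [NumberField K]

/-- The series `∑ N(𝔞) ^ (-μ)` over all ideals. -/
def Zi (μ : ℝ) : ℝ := ∑' I : Ideal (𝓞 K), (Ideal.absNorm I : ℝ) ^ (-μ)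

variable {K}

/-! ## 2. The local inequality -/

theorem local_ineq {q μ : ℝ} (hq : 1 < q) (hμ : 1 ≤ μ) (γ : ℤ) (m n : ℕ) :
    q ^ (min (γ + m) (γ + 2 * m - n)) * (q ^ (γ + m)) ^ (-(1 + μ)) ≤ q ^ (-(n : ℤ)) * (q ^ γ) ^ (-μ) * (q ^ (m - n : ℕ)) ^ (-μ) := by
  have hq0 : 0 < q := lt_trans one_pos hq
  have e1 : ∀ z : ℤ, q ^ z = q ^ (z : ℝ) := fun z => (Real.rpow_intCast q z).symm
  rw [← zpow_natCast q (m - n : ℕ), e1, e1, e1, e1, e1, ← Real.rpow_mul hq0.le, ← Real.rpow_mul hq0.le, ← Real.rpow_mul hq0.le, ← Real.rpow_add hq0, ← Real.rpow_add hq0, ← Real.rpow_add hq0]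
  refine Real.rpow_le_rpow_of_exponent_le hq.le ?_
  push_cast
  rcases le_total n m with h | h
  · have h1 : min ((γ : ℝ) + m) (γ + 2 * m - n) ≤ γ + m := min_le_left _ _
    have h2 : (0 : ℝ) ≤ n := Nat.cast_nonneg n
    rw [Nat.cast_sub h]
    nlinarith
  · have h1 : min ((γ : ℝ) + m) (γ + 2 * m - n) ≤ γ + 2 * m - n := min_le_right _ _
    have h2 : (0 : ℝ) ≤ m := Nat.cast_nonneg m
    rw [Nat.sub_eq_zero_of_le h, Nat.cast_zero]
    nlinarith

/-! ## 3. The rank one lemma -/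

/-- **The rank one lemma with level**, for a finite set `F`. -/
theorem rank_one {μ : ℝ} (hμ : 1 < μ) {𝔫 : Ideal (𝓞 K)} (h𝔫 : 𝔫 ≠ ⊥) {c : HeightOneSpectrum (𝓞 K) → ℝ} (hc : ∀ v, ∃ m : ℤ, c v = (Ideal.absNorm v.asIdeal : ℝ) ^ m)
    (hcf : {v | c v ≠ 1}.Finite) {r0 : HeightOneSpectrum (𝓞 K) → K} {D : K → HeightOneSpectrum (𝓞 K) → ℝ} (hD : ∀ r v, D r v = max (c v) (aw v (r + r0 v)))
    {Λ : AddSubgroup K} (h1 : Λ.relIndex (OO K) ≠ 0) (h2 : (OO K).relIndex Λ ≠ 0) (F : Finset K)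
    (hΛ : ∀ r ∈ F, ∀ t ∈ Λ, ∀ v, aw v t ≤ D r v ∧ aw v t * c v ≤ nw v 𝔫 * D r v * D r v)
    (hl : ∀ r ∈ F, ∀ r' ∈ F, ∀ v, aw v (r - r') * c v ≤ nw v 𝔫 * D r v * D r' v)
    (hFD : ∀ r ∈ F, {v | D r v ≠ 1}.Finite) (hinc : ∀ r ∈ F, ∀ r' ∈ F, r - r' ∈ Λ → r = r') :
    ∑ r ∈ F, ∏ᶠ v, (D r v) ^ (-(1 + μ)) ≤ Zi K μ * ((Ideal.absNorm 𝔫 : ℝ)⁻¹ * (∏ᶠ v, (c v) ^ (-μ)) * gi Λ) := by
  classical
  set q : HeightOneSpectrum (𝓞 K) → ℝ := fun v => (Ideal.absNorm v.asIdeal : ℝ) with hq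
  have hq1 : ∀ v, 1 < q v := nu2_one_lt
  have hq0 : ∀ v, 0 < q v := nu2_pos
  have hqi : ∀ v (a b : ℤ), q v ^ a = q v ^ b → a = b := fun v a b h => zpow_right_injective₀ (hq0 v) (hq1 v).ne' h
  choose γ hγ using hc
  -- the exponents
  have hDm : ∀ r v, ∃ m : ℕ, D r v = q v ^ (γ v + m) := by
    intro r v
    rw [hD]
    rcases le_total (aw v (r + r0 v)) (c v) with h | h
    · exact ⟨0, by rw [max_eq_left h, hγ]; simp [hq]⟩
    · rw [max_eq_right h]
      have hne : r + r0 v ≠ 0 := by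
        intro h0
        rw [h0, map_zero, hγ] at h
        exact absurd h (not_le.2 (zpow_pos (hq0 v) _))
      obtain ⟨a, ha⟩ := aw_zpow v _ hne
      rw [ha, hγ] at h
      have hle : γ v ≤ a := (zpow_le_zpow_iff_right₀ (hq1 v)).1 h
      obtain ⟨k, hk⟩ := Int.eq_ofNat_of_zero_le (sub_nonneg.2 hle)
      exact ⟨k, by rw [ha]; congr 1; omega⟩
  choose m hm using hDm
  set n : HeightOneSpectrum (𝓞 K) → ℕ := od 𝔫 with hn
  have hnw : ∀ v, nw v 𝔫 = q v ^ (-(n v : ℤ)) := fun v => nw_od 𝔫 v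
  -- the finite set of places
  have hTf : ({v | c v ≠ 1} ∪ {v | od 𝔫 v ≠ 0} ∪ ⋃ r ∈ F, {v | D r v ≠ 1}).Finite := by
    refine (hcf.union (od_finite h𝔫)).union ?_
    exact Set.Finite.biUnion (Finset.finite_toSet F) fun r hr => hFD r hr
  set T := hTf.toFinset with hT
  have hTc : ∀ v, v ∉ T → c v = 1 := by
    intro v hv
    by_contra h
    exact hv (hTf.mem_toFinset.2 (Or.inl (Or.inl h)))
  have hTn : ∀ v, v ∉ T → n v = 0 := by
    intro v hv
    by_contra h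
    exact hv (hTf.mem_toFinset.2 (Or.inl (Or.inr h)))
  have hTD : ∀ r ∈ F, ∀ v, v ∉ T → D r v = 1 := by
    intro r hr v hv
    by_contra h
    exact hv (hTf.mem_toFinset.2 (Or.inr (Set.mem_biUnion (Finset.mem_coe.2 hr) h)))
  have hTγ : ∀ v, v ∉ T → γ v = 0 := fun v hv => hqi v _ _ (by rw [zpow_zero, ← hTc v hv, hγ])
  have hTm : ∀ r ∈ F, ∀ v, v ∉ T → m r v = 0 := by
    intro r hr v hv
    have h := hqi v (γ v + m r v) 0 (by rw [zpow_zero, ← hTD r hr v hv, hm])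
    rw [hTγ v hv] at h
    omega
  -- two admissible points with different exponents
  have hmn : ∀ r ∈ F, ∀ r' ∈ F, ∀ v, m r v < m r' v → n v ≤ m r v := by
    intro r hr r' hr' v hlt
    have hDlt : D r v < D r' v := by
      rw [hm, hm]
      exact zpow_lt_zpow_right₀ (hq1 v) (by omega)
    have h3 : D r' v = aw v (r' + r0 v) := by
      rw [hD r' v]
      refine max_eq_right ?_
      by_contra h
      rw [not_le] at h
      have : D r' v = c v := by rw [hD r' v, max_eq_left h.le]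
      have h4 : c v ≤ D r v := by rw [hD r v]; exact le_max_left _ _
      linarith
    have h4 : aw v (r + r0 v) < aw v (r' + r0 v) := by
      rw [← h3]
      exact lt_of_le_of_lt (by rw [hD r v]; exact le_max_right _ _) hDlt
    have h5 : D r' v ≤ aw v (r - r') := by
      rw [h3]
      by_contra h
      rw [not_le] at h
      have h6 := aw_nonarch v (r + r0 v) (-(r - r'))
      rw [AbsoluteValue.map_neg] at h6
      have e : r + r0 v + -(r - r') = r' + r0 v := by ring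
      rw [e] at h6
      exact absurd h6 (not_le.2 (max_lt h4 h))
    have h6 := hl r hr r' hr' v
    rw [hnw v, hγ v] at h6
    have h7 : q v ^ (γ v) ≤ q v ^ (-(n v : ℤ)) * D r v := by
      have hpos : 0 < D r' v := by rw [hm]; exact zpow_pos (hq0 v) _
      have h8 : D r' v * q v ^ (γ v) ≤ D r' v * (q v ^ (-(n v : ℤ)) * D r v) :=
        (mul_le_mul_of_nonneg_right h5 (zpow_pos (hq0 v) _).le).trans (h6.trans (le_of_eq (by ring)))
      exact le_of_mul_le_mul_left h8 hpos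
    rw [hm, ← zpow_add₀ (hq0 v).ne'] at h7
    have h8 := (zpow_le_zpow_iff_right₀ (hq1 v)).1 h7
    omega
  -- the ideal of a point
  set e : K → HeightOneSpectrum (𝓞 K) → ℕ := fun r v => m r v - n v with he
  set J : K → Ideal (𝓞 K) := fun r => PI T (e r) with hJ
  have hJm : ∀ r ∈ F, ∀ r' ∈ F, J r = J r' → m r = m r' := by
    intro r hr r' hr' h
    funext v
    have hee : e r v = e r' v := by
      have h3 : nw v (J r) = nw v (J r') := by rw [h]
      rw [nw_PI v T (e r) (fun v hv => by simp only [he, hTm r hr v hv]; omega), nw_PI v T (e r') (fun v hv => by simp only [he, hTm r' hr' v hv]; omega)] at h3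
      have := hqi v _ _ h3
      omega
    simp only [he] at hee
    rcases lt_trichotomy (m r v) (m r' v) with hlt | heq | hgt
    · have := hmn r hr r' hr' v hlt
      omega
    · exact heq
    · have := hmn r' hr' r hr v hgt
      omega
  have hfpc : ∏ᶠ v, (c v) ^ (-μ) = ∏ v ∈ T, (c v) ^ (-μ) := by
    refine finprod_eq_prod_of_mulSupport_subset _ fun v hv => ?_
    by_contra h
    rw [Finset.mem_coe] at h
    exact hv (by show (c v) ^ (-μ) = 1; rw [hTc v h, Real.one_rpow])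
  have hfpD : ∀ r ∈ F, ∏ᶠ v, (D r v) ^ (-(1 + μ)) = ∏ v ∈ T, (D r v) ^ (-(1 + μ)) := by
    intro r hr
    refine finprod_eq_prod_of_mulSupport_subset _ fun v hv => ?_
    by_contra h
    rw [Finset.mem_coe] at h
    exact hv (by show (D r v) ^ (-(1 + μ)) = 1; rw [hTD r hr v h, Real.one_rpow])
  have hgi : 0 ≤ gi Λ := div_nonneg (Nat.cast_nonneg _) (Nat.cast_nonneg _)
  have hnn : (Ideal.absNorm 𝔫 : ℝ) = ∏ v ∈ T, q v ^ n v := norm_od h𝔫 T hTn
  -- one fibre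
  have fibre : ∀ I ∈ F.image J, ∑ r ∈ F with J r = I, ∏ᶠ v, (D r v) ^ (-(1 + μ)) ≤ (Ideal.absNorm I : ℝ) ^ (-μ) * ((Ideal.absNorm 𝔫 : ℝ)⁻¹ * (∏ᶠ v, (c v) ^ (-μ)) * gi Λ) := by
    intro I hI
    obtain ⟨r₁, hr₁, rfl⟩ := Finset.mem_image.1 hI
    set b : HeightOneSpectrum (𝓞 K) → ℤ := fun v => min (γ v + m r₁ v) (γ v + 2 * m r₁ v - n v) with hb
    have hbT : ∀ v, v ∉ T → b v = 0 := by
      intro v hv
      simp only [hb, hTγ v hv, hTm r₁ hr₁ v hv, hTn v hv]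
      simp
    set P := PI T fun v => (b v).toNat with hP
    set Q := PI T fun v => (-b v).toNat with hQ
    have hPv : ∀ v, nw v P = q v ^ (-((b v).toNat : ℤ)) := fun v => nw_PI v T _ fun v hv => by rw [hbT v hv]; rfl
    have hQv : ∀ v, nw v Q = q v ^ (-((-b v).toNat : ℤ)) := fun v => nw_PI v T _ fun v hv => by rw [hbT v hv]; rfl
    have hBx : ∀ x : K, x ∈ Bx P Q ↔ ∀ v, aw v x ≤ q v ^ b v := by
      intro x
      rw [mem_Bx]
      refine forall_congr' fun v => ?_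
      rw [hPv, hQv, zpow_neg, ← div_eq_mul_inv, div_le_iff₀ (zpow_pos (hq0 v) _), ← zpow_add₀ (hq0 v).ne']
      have : -((-b v).toNat : ℤ) + ((b v).toNat : ℤ) = b v := by omega
      rw [this]
    have hbb : ∀ v x, aw v x ≤ D r₁ v → aw v x * c v ≤ nw v 𝔫 * D r₁ v * D r₁ v → aw v x ≤ q v ^ b v := by
      intro v x h3 h4
      rw [hm] at h3
      rcases min_choice (γ v + m r₁ v : ℤ) (γ v + 2 * m r₁ v - n v) with h5 | h5
      · simp only [hb]
        rw [h5]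
        exact h3
      · simp only [hb]
        rw [h5]
        rw [hm, hnw, hγ] at h4
        have h6 : aw v x * q v ^ γ v ≤ q v ^ (γ v + 2 * m r₁ v - n v) * q v ^ γ v := by
          refine h4.trans (le_of_eq ?_)
          rw [← zpow_add₀ (hq0 v).ne', ← zpow_add₀ (hq0 v).ne', ← zpow_add₀ (hq0 v).ne']
          congr 1
          ring
        exact le_of_mul_le_mul_right h6 (zpow_pos (hq0 v) _)
    have hDpos : ∀ v, 0 < D r₁ v := fun v => by rw [hm]; exact zpow_pos (hq0 v) _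
    have hΛB : Λ ≤ Bx P Q := by
      intro t ht
      rw [hBx]
      intro v
      exact hbb v t (hΛ r₁ hr₁ t ht v).1 (hΛ r₁ hr₁ t ht v).2
    have hDeq : ∀ r ∈ F, J r = J r₁ → ∀ v, D r v = D r₁ v := by
      intro r hr h v
      rw [hm, hm, hJm r hr r₁ hr₁ h]
    have hcard := Bx_card (PI_ne T _) (PI_ne T _) h1 h2 hΛB (F.filter fun r => J r = J r₁) (by
      intro r hr r' hr'
      obtain ⟨hr, hr2⟩ := Finset.mem_filter.1 hr
      obtain ⟨hr', hr2'⟩ := Finset.mem_filter.1 hr'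
      rw [hBx]
      intro v
      refine hbb v _ ?_ ?_
      · have e : r - r' = (r + r0 v) + -(r' + r0 v) := by ring
        rw [e]
        refine (aw_nonarch v _ _).trans (max_le ?_ ?_)
        · rw [← hDeq r hr hr2 v, hD]
          exact le_max_right _ _
        · rw [AbsoluteValue.map_neg, ← hDeq r' hr' hr2' v, hD]
          exact le_max_right _ _
      · have h3 := hl r hr r' hr' v
        rw [hDeq r hr hr2 v, hDeq r' hr' hr2' v] at h3
        exact h3) (by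
      intro r hr r' hr' h
      exact hinc r (Finset.mem_filter.1 hr).1 r' (Finset.mem_filter.1 hr').1 h)
    have hsum : ∑ r ∈ F with J r = J r₁, ∏ᶠ v, (D r v) ^ (-(1 + μ)) = ((F.filter fun r => J r = J r₁).card : ℝ) * ∏ v ∈ T, (D r₁ v) ^ (-(1 + μ)) := by
      rw [Finset.sum_congr rfl (g := fun _ => ∏ v ∈ T, (D r₁ v) ^ (-(1 + μ))), Finset.sum_const, nsmul_eq_mul]
      intro r hr
      obtain ⟨hr, hr2⟩ := Finset.mem_filter.1 hr
      rw [hfpD r hr]
      exact Finset.prod_congr rfl fun v _ => by rw [hDeq r hr hr2 v]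
    rw [hsum]
    have hW : 0 ≤ ∏ v ∈ T, (D r₁ v) ^ (-(1 + μ)) := Finset.prod_nonneg fun v _ => Real.rpow_nonneg (hDpos v).le _
    refine (mul_le_mul_of_nonneg_right hcard hW).trans ?_
    have hPQ : (Ideal.absNorm P : ℝ) / (Ideal.absNorm Q : ℝ) = ∏ v ∈ T, q v ^ b v := by
      rw [PI_norm, PI_norm, ← Finset.prod_div_distrib]
      refine Finset.prod_congr rfl fun v _ => ?_
      rw [← zpow_natCast, ← zpow_natCast, ← zpow_sub₀ (hq0 v).ne']
      congr 1
      omega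
    rw [mul_div_assoc, hPQ, hfpc, hnn, PI_norm]
    have e3 : gi Λ * (∏ v ∈ T, q v ^ b v) * ∏ v ∈ T, (D r₁ v) ^ (-(1 + μ)) = gi Λ * ∏ v ∈ T, (q v ^ b v * (D r₁ v) ^ (-(1 + μ))) := by
      rw [Finset.prod_mul_distrib, mul_assoc]
    have e4 : (∏ v ∈ T, q v ^ e r₁ v) ^ (-μ) * ((∏ v ∈ T, q v ^ n v)⁻¹ * (∏ v ∈ T, (c v) ^ (-μ)) * gi Λ) = gi Λ * ∏ v ∈ T, (q v ^ (-(n v : ℤ)) * (q v ^ γ v) ^ (-μ) * (q v ^ (e r₁ v)) ^ (-μ)) := by
      rw [Finset.prod_mul_distrib, Finset.prod_mul_distrib, ← Real.finsetProd_rpow _ _ (fun v _ => (pow_pos (hq0 v) _).le), ← Finset.prod_inv_distrib]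
      have e5 : ∏ v ∈ T, (q v ^ n v)⁻¹ = ∏ v ∈ T, q v ^ (-(n v : ℤ)) := Finset.prod_congr rfl fun v _ => by rw [zpow_neg, zpow_natCast]
      have e6 : ∏ v ∈ T, (c v) ^ (-μ) = ∏ v ∈ T, (q v ^ γ v) ^ (-μ) := Finset.prod_congr rfl fun v _ => by rw [hγ v]
      rw [e5, e6]
      ring
    rw [e3]
    refine le_trans ?_ (le_of_eq e4.symm)
    refine mul_le_mul_of_nonneg_left (Finset.prod_le_prod (fun v _ => mul_nonneg (zpow_pos (hq0 v) _).le (Real.rpow_nonneg (hDpos v).le _)) fun v _ => ?_) hgi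
    rw [hm]
    exact local_ineq (hq1 v) hμ.le (γ v) (m r₁ v) (n v)
  -- the sum over the fibres
  have hC0 : 0 ≤ (Ideal.absNorm 𝔫 : ℝ)⁻¹ * (∏ᶠ v, (c v) ^ (-μ)) * gi Λ := by
    rw [hfpc]
    refine mul_nonneg (mul_nonneg (inv_nonneg.2 (Nat.cast_nonneg _)) (Finset.prod_nonneg fun v _ => Real.rpow_nonneg ?_ _)) hgi
    rw [hγ]
    exact (zpow_pos (hq0 v) _).le
  rw [← Finset.sum_fiberwise_of_maps_to (fun r hr => Finset.mem_image_of_mem J hr)]
  calc ∑ I ∈ F.image J, ∑ r ∈ F with J r = I, ∏ᶠ v, (D r v) ^ (-(1 + μ)) ≤ ∑ I ∈ F.image J, (Ideal.absNorm I : ℝ) ^ (-μ) * ((Ideal.absNorm 𝔫 : ℝ)⁻¹ * (∏ᶠ v, (c v) ^ (-μ)) * gi Λ) :=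
        Finset.sum_le_sum fibre
    _ = (∑ I ∈ F.image J, (Ideal.absNorm I : ℝ) ^ (-μ)) * ((Ideal.absNorm 𝔫 : ℝ)⁻¹ * (∏ᶠ v, (c v) ^ (-μ)) * gi Λ) := by rw [Finset.sum_mul]
    _ ≤ _ := mul_le_mul_of_nonneg_right ((ideal_summable μ hμ).sum_le_tsum _ fun I _ => Real.rpow_nonneg (Nat.cast_nonneg _) _) hC0

end

end Pool.Agent.Lib.L8.FR
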